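import Mathlib
import Pool.Agent.Helper11.Can.Coh
import Pool.Agent.Helper11.CanTypes
import Pool.Agent.Helper10.Koszul

/-!
# CAN-C3 (MP_5f0950_ag)
-/

universe u v w t

open CategoryTheory Finset

namespace Pool.Agent.Helper11.Can

open Pool.Agent.Helper10 hiding IsAlgAut parityPart
open SmProjVar SPre Pool.Agent.Helper10.GIT Pool.Agent.Helper11.Iso Pool.Agent.Helper11.Can

section coh

variable {k : Type u} [Field k] {K : Type t} [Field K] {Ω : Type v} [Field Ω] [Algebra K Ω]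
  {S : SPre.{u, v, w, t} k K Ω} {P : ℕ} {d : Fin P → ℕ} {V : Fin P → SmProjVar k}

namespace C3aux

/-- dependent functions on `Fin m × Fin 2` -/
def pairEquiv {m : ℕ} (γ : Fin m × Fin 2 → Type) :
    (∀ p, γ p) ≃ (∀ x, γ (x, 0) × γ (x, 1)) where
  toFun f x := (f (x, 0), f (x, 1))
  invFun h := fun p => match p with
    | (x, 0) => (h x).1
    | (x, 1) => (h x).2
  left_inv f := by
    funext p
    obtain ⟨x, b⟩ := p
    fin_cases b <;> rfl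
  right_inv h := by
    funext x
    rfl

/-- the words of a tuple, letter by letter -/
def wordsEquiv {I : Type} {χ : I → Shape P} {m : ℕ} (σ : Fin m × Fin 2 ≃ Pos χ) :
    (∀ r, Word d (χ r)) ≃ (∀ x : Fin m, Fin (d ((χ (σ (x, 0)).1).2 (σ (x, 0)).2)) ×
      Fin (d ((χ (σ (x, 1)).1).2 (σ (x, 1)).2))) :=
  ((Equiv.piCurry (fun r (i : Fin (χ r).1) => Fin (d ((χ r).2 i)))).symm.trans
    (Equiv.piCongrLeft (fun q : Pos χ => Fin (d ((χ q.1).2 q.2))) σ).symm).trans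
    (pairEquiv (fun p => Fin (d ((χ (σ p).1).2 (σ p).2))))

lemma wordsEquiv_apply {I : Type} {χ : I → Shape P} {m : ℕ} (σ : Fin m × Fin 2 ≃ Pos χ)
    (W : ∀ r, Word d (χ r)) (x : Fin m) :
    wordsEquiv σ W x = (W (σ (x, 0)).1 (σ (x, 0)).2, W (σ (x, 1)).1 (σ (x, 1)).2) := rfl

end C3aux

open Classical in
/-- CAN-C3: a sum over all tuples of words of products over pairs of positions is a product of
sums (`ofFn_prod_sum` in Helper10/Koszul.lean, and the equivalence of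
`∀ r, Word d (χ r)` with `∀ x : Fin m, Fin (d (class of σ (x, 0))) × Fin (d (class of σ (x, 1)))`) -/
theorem sum_pairs {A : Type w} [Ring A] [Algebra Ω A] {I : Type} [Fintype I] {χ : I → Shape P}
    {m : ℕ} (σ : Fin m × Fin 2 ≃ Pos χ) (g : Fin m → Let d → Let d → Ω)
    (Λ : Pos χ → Let d → A) :
    ∑ W : ∀ r, Word d (χ r), (∏ x, g x (ltp W (σ (x, 0))) (ltp W (σ (x, 1)))) •
      (List.ofFn fun x => Λ (σ (x, 0)) (ltp W (σ (x, 0))) *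
        Λ (σ (x, 1)) (ltp W (σ (x, 1)))).prod =
    (List.ofFn fun x : Fin m =>
      ∑ v : Fin (d ((χ (σ (x, 0)).1).2 (σ (x, 0)).2)),
        ∑ v' : Fin (d ((χ (σ (x, 1)).1).2 (σ (x, 1)).2)),
          g x ⟨_, v⟩ ⟨_, v'⟩ • (Λ (σ (x, 0)) ⟨_, v⟩ * Λ (σ (x, 1)) ⟨_, v'⟩)).prod := by
  have h1 : (fun x : Fin m =>
      ∑ v : Fin (d ((χ (σ (x, 0)).1).2 (σ (x, 0)).2)),
        ∑ v' : Fin (d ((χ (σ (x, 1)).1).2 (σ (x, 1)).2)),
          g x ⟨_, v⟩ ⟨_, v'⟩ • (Λ (σ (x, 0)) ⟨_, v⟩ * Λ (σ (x, 1)) ⟨_, v'⟩)) =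
      fun x : Fin m => ∑ a : Fin (d ((χ (σ (x, 0)).1).2 (σ (x, 0)).2)) ×
        Fin (d ((χ (σ (x, 1)).1).2 (σ (x, 1)).2)),
          g x ⟨_, a.1⟩ ⟨_, a.2⟩ • (Λ (σ (x, 0)) ⟨_, a.1⟩ * Λ (σ (x, 1)) ⟨_, a.2⟩) := by
    funext x
    rw [Fintype.sum_prod_type]
  rw [h1]
  refine Eq.trans ?_ (ofFn_prod_sum (α := fun x : Fin m =>
    Fin (d ((χ (σ (x, 0)).1).2 (σ (x, 0)).2)) × Fin (d ((χ (σ (x, 1)).1).2 (σ (x, 1)).2)))
    (fun x a => g x ⟨_, a.1⟩ ⟨_, a.2⟩)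
    (fun x a => Λ (σ (x, 0)) ⟨_, a.1⟩ * Λ (σ (x, 1)) ⟨_, a.2⟩)).symm
  exact Fintype.sum_equiv (C3aux.wordsEquiv σ) _ _ (fun W => rfl)

end coh

end Pool.Agent.Helper11.Can
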